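import Pool.Agent.H16.TO.Targets

set_option autoImplicit false

namespace Pool.Agent.H86.TW

open Pool.Agent.H16.TO

theorem pf_ca (hLS : T_LS) (hMR : T_MR) : T_CA := by
  intro r T G H K cl s hK hsys
  obtain ⟨n, hbox, hs, hKn, hdig⟩ := hLS r T G H K cl s hK hsys
  obtain ⟨h1, h2, -, -, -⟩ := hMR r n hbox
  obtain ⟨-, -, hG, -, -, -, hL⟩ := hsys
  refine ⟨n, hbox, hKn, fun x => (cl (idx r n x)).2, ?_⟩
  intro x hx
  obtain ⟨hlt, hd⟩ := h1 x hx
  rw [← hKn] at hlt
  have e2 : (fun i => decide (x i = 0)) = fun i => fl (cl (idx r n x)) 2 i := by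
    funext i
    by_cases hi : i < r
    · rw [Bool.eq_iff_iff, decide_eq_true_iff, (hdig _ hlt i hi).1, hd]
    · have hn : n i = 1 := hbox.2 i (by omega)
      have hxi := hx i
      have h0 : x i = 0 := by omega
      simp [fl, hi, h0]
  have e3 : (fun i => decide (x i + 1 = n i)) = fun i => fl (cl (idx r n x)) 3 i := by
    funext i
    by_cases hi : i < r
    · rw [Bool.eq_iff_iff, decide_eq_true_iff, (hdig _ hlt i hi).2, hd]
    · have hn : n i = 1 := hbox.2 i (by omega)
      have hxi := hx i
      have h0 : x i = 0 := by omega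
      simp [fl, hi, h0, hn]
  refine ⟨?_, ?_⟩
  · have hg := hG _ hlt
    unfold CellG at hg
    rw [e2, e3]
    exact hg
  · intro j hj hxj
    have hup : ∀ i, Function.update x j (x j + 1) i < n i := by
      intro i
      by_cases hij : i = j
      · subst hij
        rw [Function.update_self]
        exact hxj
      · rw [Function.update_of_ne hij]
        exact hx i
    have hlt2 := (h1 _ hup).1
    rw [h2 x j hj, ← hKn, ← hs j hj] at hlt2
    have hl := (hL j hj _ hlt2).2
    have hf : fl (cl (idx r n x)) 3 j = false := by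
      rw [Bool.eq_false_iff]
      intro ht
      have := (hdig _ hlt j hj).2.1 ht
      rw [hd] at this
      omega
    have hfin := hl hf
    show H j (cl (idx r n x)).2 (cl (idx r n (Function.update x j (x j + 1)))).2
    rw [h2 x j hj, ← hs j hj]
    exact hfin

end Pool.Agent.H86.TW
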