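import Pool.Agent.H16.TO.Targets

set_option autoImplicit false

namespace Pool.Agent.H86.TW

open Pool.Agent.H16.TO

/-- the cells of a tiling -/
def cellOf {T : Type} (r : ℕ) (n : ℕ → ℕ) (f : (ℕ → ℕ) → T) (k : ℕ) : Cell r T :=
  (fun c j => if c = 0 then decide (k < wt n j) else
    if c = 1 then decide (wt n r - wt n j ≤ k) else
    if c = 2 then decide (dig n k j = 0) else decide (dig n k j + 1 = n j), f (dig n k))

section
variable {T : Type} {r : ℕ} {n : ℕ → ℕ} (f : (ℕ → ℕ) → T)

theorem fl0 {k j : ℕ} (hj : j < r) : fl (cellOf r n f k) 0 j = true ↔ k < wt n j := by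
  simp [fl, cellOf, hj]

theorem fl1 {k j : ℕ} (hj : j < r) :
    fl (cellOf r n f k) 1 j = true ↔ wt n r - wt n j ≤ k := by
  simp [fl, cellOf, hj]

theorem fl2 (hb : Box r n) (k j : ℕ) : fl (cellOf r n f k) 2 j = decide (dig n k j = 0) := by
  by_cases hj : j < r
  · simp [fl, cellOf, hj]
  · have h1 : n j = 1 := hb.2 j (by omega)
    have h0 : dig n k j = 0 := by
      unfold dig
      rw [h1, Nat.mod_one]
    simp [fl, hj, h0]

theorem fl3 (hb : Box r n) (k j : ℕ) :
    fl (cellOf r n f k) 3 j = decide (dig n k j + 1 = n j) := by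
  by_cases hj : j < r
  · simp [fl, cellOf, hj]
  · have h1 : n j = 1 := hb.2 j (by omega)
    have h0 : dig n k j = 0 := by
      unfold dig
      rw [h1, Nat.mod_one]
    simp [fl, hj, h0, h1]

theorem wt_pos (hb : Box r n) (j : ℕ) : 0 < wt n j :=
  Finset.prod_pos fun i _ => hb.1 i

theorem wt_dvd {j : ℕ} (hj : j ≤ r) : wt n j ∣ wt n r :=
  Finset.prod_dvd_prod_of_subset _ _ _ (Finset.range_subset_range.2 hj)

theorem carry_iff (hCY : T_CY) (hb : Box r n) (k j : ℕ) :
    carry (cellOf r n f k) j ↔ (k + 1) % wt n j = 0 := by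
  rw [← hCY n hb.1 k j]
  unfold carry
  constructor
  · intro h i hi
    have := h i hi
    rw [fl3 f hb, decide_eq_true_iff] at this
    exact this
  · intro h i hi
    rw [fl3 f hb, decide_eq_true_iff]
    exact h i hi

end

theorem pf_cb (hCY : T_CY) (hDS : T_DS) (hMR : T_MR) : T_CB := by
  intro r T G H n hb htile
  obtain ⟨f, hf⟩ := htile
  obtain ⟨-, -, m3, m4, m5⟩ := hMR r n hb
  refine ⟨cellOf r n f, fun j => wt n j, ?_, ?_, ?_, ?_, ?_, ?_, ?_⟩
  · intro j hj
    refine ⟨(fl0 f hj).2 (wt_pos hb j), ?_⟩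
    rw [fl2 f hb, decide_eq_true_iff]
    simp [dig]
  · intro j hj
    have hc : carry (cellOf r n f (wt n r - 1)) r := by
      rw [carry_iff f hCY hb]
      have := wt_pos hb r
      rw [Nat.sub_add_cancel this, Nat.mod_self]
    exact hc j hj
  · intro k hk
    unfold CellG
    have e2 : (fun i => fl (cellOf r n f k) 2 i) = fun i => decide (dig n k i = 0) := by
      funext i
      exact fl2 f hb k i
    have e3 : (fun i => fl (cellOf r n f k) 3 i) = fun i => decide (dig n k i + 1 = n i) := by
      funext i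
      exact fl3 f hb k i
    rw [e2, e3]
    exact (hf _ (m3 k).1).1
  · intro k hk
    refine ⟨?_, ?_⟩
    · rw [carry_iff f hCY hb, Nat.mod_eq_of_lt hk]
      omega
    · intro j hj
      have hw := wt_pos hb j
      refine ⟨?_, ?_, ?_, ?_⟩
      · rw [fl0 f hj, fl0 f hj, carry_iff f hCY hb]
        constructor
        · intro h
          refine ⟨by omega, ?_⟩
          rw [Nat.mod_eq_of_lt h]
          omega
        · rintro ⟨h1, h2⟩
          rcases Nat.lt_or_ge (k + 1) (wt n j) with h | h
          · exact h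
          · have : k + 1 = wt n j := by omega
            rw [this, Nat.mod_self] at h2
            exact absurd rfl h2
      · rw [fl1 f hj, fl1 f hj]
        intro h
        omega
      · intro hc
        rw [carry_iff f hCY hb] at hc
        have hd := (hDS n hb.1 k j).1 hc
        rw [fl2 f hb, fl2 f hb, fl3 f hb, fl3 f hb, hd]
        exact ⟨rfl, rfl⟩
      · intro hc
        rw [carry_iff f hCY hb] at hc
        have hd := (hDS n hb.1 k j).2 hc
        rw [fl2 f hb, fl3 f hb, Bool.eq_iff_iff, decide_eq_true_iff, decide_eq_true_iff]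
        exact hd
  · intro j hj
    exact ⟨Nat.le_of_dvd (wt_pos hb r) (wt_dvd hj.le), fun k _ => fl0 f hj⟩
  · intro j hj k _
    exact fl1 f hj
  · intro j hj k hk
    refine ⟨?_, ?_⟩
    · intro i hi
      rw [fl2 f hb, fl2 f hb, fl3 f hb, fl3 f hb, m4 k j i hi]
      exact ⟨rfl, rfl⟩
    · intro h3
      rw [fl3 f hb, decide_eq_false_iff_not] at h3
      have hlt : dig n k j < n j := (m3 k).1 j
      have hlt' : dig n k j + 1 < n j := by omega
      have hh := (hf _ (m3 k).1).2 j hj hlt'
      rw [← m5 k j hlt'] at hh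
      exact hh

end Pool.Agent.H86.TW
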